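import Pool.Agent.KIL.Stmts

/-!
# The algebra of the Lyapunov function of the pre-kills
-/

set_option autoImplicit false

open scoped BigOperators

noncomputable section

namespace Pool.Agent.KIL.H38

/-- the weighted sum of the `x v` -/
theorem csw {W : Type} [Fintype W] (H : Finset W) (a ω : W → ℝ) (x e : W → ℝ) (M q : ℝ)
    (ha : ∀ v, 0 ≤ a v) (he : ∀ v, 0 ≤ e v ∧ x v ^ 2 ≤ 4 * (a v * e v)) (hM : 0 ≤ M)
    (hω : ∀ v, ω v ^ 2 ≤ M) (hH : ∀ v, v ∉ H → ω v = 0) (h1 : ∑ v, a v = 1)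
    (hq : ∑ v ∈ H, e v ≤ q) : (∑ v, ω v * x v) ^ 2 ≤ 4 * M * q := by
  have e1 : ∑ v, ω v * x v = ∑ v ∈ H, ω v * x v := by
    symm
    refine Finset.sum_subset (Finset.subset_univ H) fun v _ hv => ?_
    rw [hH v hv, zero_mul]
  rw [e1]
  have e2 := Finset.sum_sq_le_sum_mul_sum_of_sq_le_mul H (r := fun v => ω v * x v)
    (f := fun v => 4 * M * a v) (g := fun v => e v)
    (fun v _ => mul_nonneg (mul_nonneg (by norm_num) hM) (ha v)) (fun v _ => (he v).1)
    (fun v _ => by
      have e3 := (he v).2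
      have e4 := hω v
      have e5 : 0 ≤ 4 * (a v * e v) := le_trans (sq_nonneg _) e3
      calc (ω v * x v) ^ 2 = ω v ^ 2 * x v ^ 2 := by ring
        _ ≤ M * (4 * (a v * e v)) := by gcongr
        _ = 4 * M * a v * e v := by ring)
  refine e2.trans ?_
  rw [← Finset.mul_sum]
  have e6 : ∑ v ∈ H, a v ≤ 1 := by
    rw [← h1]
    exact Finset.sum_le_sum_of_subset_of_nonneg (Finset.subset_univ _) fun v _ _ => ha v
  have e7 : 0 ≤ ∑ v ∈ H, e v := Finset.sum_nonneg fun v _ => (he v).1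
  have e8 : 0 ≤ ∑ v ∈ H, a v := Finset.sum_nonneg fun v _ => ha v
  calc 4 * M * (∑ v ∈ H, a v) * ∑ v ∈ H, e v ≤ 4 * M * 1 * ∑ v ∈ H, e v := by gcongr
    _ ≤ 4 * M * 1 * q := by gcongr
    _ = 4 * M * q := by ring

theorem abs_mul_le_of_sq {a b p q r : ℝ} (ha : a ^ 2 ≤ p) (hb : b ^ 2 ≤ q) (hr : 0 ≤ r)
    (h : p * q ≤ r ^ 2) : |a * b| ≤ r := by
  refine abs_le_of_sq_le_sq ?_ hr
  calc (a * b) ^ 2 = a ^ 2 * b ^ 2 := by ring
    _ ≤ p * q := mul_le_mul ha hb (sq_nonneg _) (le_trans (sq_nonneg _) ha)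
    _ ≤ r ^ 2 := h

theorem poly {y : ℝ} (h0 : 0 ≤ y) (h1 : y ≤ 1) : 2 / 5 ≤ 3 - 2 * y - 12 * y * (1 - y) ^ 2 := by
  nlinarith [mul_nonneg h0 (sq_nonneg (y - 43 / 100)),
    mul_nonneg (sub_nonneg.2 h1) (sq_nonneg (y - 43 / 100)), sq_nonneg (y - 43 / 100)]

theorem kal : KalStmt := by
  refine ⟨1 / 3000, 2000, by norm_num, by norm_num, ?_⟩
  intro W ι _ _ _ D R H a p w z er s x e A ε hε hε0 hDR hDH ha ha1 hR hA he heH heA hs hsA
    d da la y m ly lm dy dm hd hda hla hm hy hdm hdy hlm hly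
  have hε1 : ε ≤ 1 := by linarith
  set At : ℝ := ∑ c, A c with hAt
  set Er : ℝ := ∑ v, |er v| with hEr
  set E2 : ℝ := ∑ c, d c ^ 2 with hE2
  set J : ℝ := (∑ v', ((∑ c, e v' c) + er v')) - ∑ c, A c with hJ
  have hAt0 : 0 ≤ At := Finset.sum_nonneg fun c _ => hA c
  have hEr0 : 0 ≤ Er := Finset.sum_nonneg fun c _ => abs_nonneg _
  have hE20 : 0 ≤ E2 := Finset.sum_nonneg fun c _ => sq_nonneg _
  -- the sum of all `e v c`
  have hes : ∀ c, ∑ v, e v c ≤ (1 + ε) * A c := fun c => by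
    have := (abs_le.1 (heA c)).2; linarith
  have hes' : ∀ c, (1 - ε) * A c ≤ ∑ v, e v c := fun c => by
    have := (abs_le.1 (heA c)).1; linarith
  have hJb : |J| ≤ ε * At + Er := by
    have e1 : J = (∑ c, (∑ v, e v c - A c)) + ∑ v, er v := by
      rw [hJ, Finset.sum_add_distrib, Finset.sum_sub_distrib, Finset.sum_comm]
      ring
    rw [e1]
    refine (abs_add_le _ _).trans (add_le_add ?_ (Finset.abs_sum_le_sum_abs _ _))
    refine (Finset.abs_sum_le_sum_abs _ _).trans ?_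
    rw [hAt, Finset.mul_sum]
    exact Finset.sum_le_sum fun c _ => heA c
  -- weights
  classical
  set om : W → ℝ := fun v => if v ∈ D then 1 else if v ∈ R then w v else 0 with hom
  set oD : W → ℝ := fun v => if v ∈ D then 1 else 0 with hoD
  set sg : W → ℝ := fun v => if v ∈ D then 1 else if v ∈ R then p v / a v else 0 with hsg
  have hRD : ∀ v, v ∈ R → v ∉ D := fun v hv hv' => (Finset.disjoint_left.1 hDR) hv' hv
  have sumom : ∀ f : W → ℝ, ∑ v, om v * f v = (∑ v ∈ D, f v) + ∑ v ∈ R, w v * f v := by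
    intro f
    have e1 : ∀ v, om v * f v = (if v ∈ D then f v else 0) + (if v ∈ R then w v * f v else 0) := by
      intro v
      simp only [hom]
      by_cases h1 : v ∈ D
      · have h2 : v ∉ R := fun h => hRD v h h1
        simp [h1, h2]
      · by_cases h2 : v ∈ R <;> simp [h1, h2]
    rw [Finset.sum_congr rfl fun v _ => e1 v, Finset.sum_add_distrib, Finset.sum_ite_mem,
      Finset.sum_ite_mem, Finset.univ_inter, Finset.univ_inter]
  have sumoD : ∀ f : W → ℝ, ∑ v, oD v * f v = ∑ v ∈ D, f v := by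
    intro f
    have e1 : ∀ v, oD v * f v = (if v ∈ D then f v else 0) := by
      intro v; simp only [hoD]; split_ifs <;> simp
    rw [Finset.sum_congr rfl fun v _ => e1 v, Finset.sum_ite_mem, Finset.univ_inter]
  have homb : ∀ v, |om v| ≤ 1 + ε := by
    intro v
    simp only [hom]
    split_ifs with h1 h2
    · rw [abs_one]; linarith
    · exact (hR v h2).2.2.2.2.1
    · rw [abs_zero]; linarith
  have homs : ∀ v, om v ^ 2 ≤ 4 := by
    intro v
    have := homb v
    have h2 : |om v| ≤ 2 := by linarith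
    nlinarith [abs_nonneg (om v), sq_abs (om v)]
  have homH : ∀ v, v ∉ H → om v = 0 := by
    intro v hv
    simp only [hom]
    rw [if_neg fun h => hv (hDH h)]
    split_ifs with h2
    · exact ((hR v h2).2.2.2.2.2 hv).2.1
    · rfl
  have hoDb : ∀ v, oD v ^ 2 ≤ 1 := by
    intro v; simp only [hoD]; split_ifs <;> norm_num
  have hoDH : ∀ v, v ∉ H → oD v = 0 := by
    intro v hv
    simp only [hoD]
    rw [if_neg fun h => hv (hDH h)]
  have hsg01 : ∀ v, 0 ≤ sg v ∧ sg v ≤ 1 := by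
    intro v
    simp only [hsg]
    split_ifs with h1 h2
    · exact ⟨zero_le_one, le_rfl⟩
    · obtain ⟨q1, q2, -⟩ := hR v h2
      refine ⟨div_nonneg q1 (ha v), ?_⟩
      rcases eq_or_lt_of_le (ha v) with h | h
      · rw [← h, div_zero]; exact zero_le_one
      · rw [div_le_one h]; exact q2
    · exact ⟨le_rfl, zero_le_one⟩
  have hsgH : ∀ v, v ∉ H → sg v = 0 := by
    intro v hv
    simp only [hsg]
    rw [if_neg fun h => hv (hDH h)]
    split_ifs with h2
    · rw [((hR v h2).2.2.2.2.2 hv).1, zero_div]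
    · rfl
  have hsga : ∀ v, sg v * a v = if v ∈ D then a v else if v ∈ R then p v else 0 := by
    intro v
    simp only [hsg]
    split_ifs with h1 h2
    · rw [one_mul]
    · obtain ⟨q1, q2, -⟩ := hR v h2
      rcases eq_or_lt_of_le (ha v) with h | h
      · rw [← h] at q2 ⊢
        rw [mul_zero]; linarith
      · field_simp
    · rw [zero_mul]
  have hsgy : ∑ v, sg v * a v = y := by
    rw [hy, hm]
    have e1 : ∀ v, sg v * a v = (if v ∈ D then a v else 0) + (if v ∈ R then p v else 0) := by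
      intro v
      rw [hsga v]
      by_cases h1 : v ∈ D
      · have h2 : v ∉ R := fun h => hRD v h h1
        simp [h1, h2]
      · by_cases h2 : v ∈ R <;> simp [h1, h2]
    rw [Finset.sum_congr rfl fun v _ => e1 v, Finset.sum_add_distrib, Finset.sum_ite_mem,
      Finset.sum_ite_mem, Finset.univ_inter, Finset.univ_inter]
  have hy0 : 0 ≤ y := by
    rw [← hsgy]; exact Finset.sum_nonneg fun v _ => mul_nonneg (hsg01 v).1 (ha v)
  have hy1 : y ≤ 1 := by
    rw [← hsgy, ← ha1]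
    exact Finset.sum_le_sum fun v _ => by nlinarith [(hsg01 v).2, ha v]
  have hm0 : 0 ≤ m := by rw [hm]; exact Finset.sum_nonneg fun v _ => ha v
  have hmy : m ≤ y := by
    rw [hy]
    have : 0 ≤ ∑ v ∈ R, p v := Finset.sum_nonneg fun v hv => (hR v hv).1
    linarith
  -- Y
  set Y : ℝ := ∑ v, om v * a v with hY
  have hYy : |Y - y| ≤ ε := by
    have e1 : Y - y = ∑ v ∈ R, (a v * w v - p v) := by
      rw [hY, sumom, hy, hm, Finset.sum_sub_distrib]
      have : ∑ v ∈ R, w v * a v = ∑ v ∈ R, a v * w v :=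
        Finset.sum_congr rfl fun v _ => mul_comm _ _
      rw [this]; ring
    rw [e1]
    refine (Finset.abs_sum_le_sum_abs _ _).trans ?_
    calc ∑ v ∈ R, |a v * w v - p v| ≤ ∑ v ∈ R, ε * a v :=
          Finset.sum_le_sum fun v hv => (hR v hv).2.2.1
      _ = ε * ∑ v ∈ R, a v := by rw [Finset.mul_sum]
      _ ≤ ε * 1 := by
          refine mul_le_mul_of_nonneg_left ?_ hε
          rw [← ha1]
          exact Finset.sum_le_sum_of_subset_of_nonneg (Finset.subset_univ _) fun v _ _ => ha v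
      _ = ε := mul_one _
  have hYy' := abs_le.1 hYy
  have hYb : |Y| ≤ 2 := by
    rw [abs_le]; constructor <;> linarith [hYy'.1, hYy'.2]
  -- X
  set Xo : ι → ℝ := fun c => ∑ v, om v * x v c with hXo
  set XD : ι → ℝ := fun c => ∑ v, oD v * x v c with hXD
  have hXo2 : ∀ c, Xo c ^ 2 ≤ 16 * (ε ^ 2 * A c) := by
    intro c
    have := csw H a om (fun v => x v c) (fun v => e v c) 4 (ε ^ 2 * A c) ha (fun v => he v c)
      (by norm_num) homs homH ha1 (heH c)
    calc Xo c ^ 2 ≤ 4 * 4 * (ε ^ 2 * A c) := this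
      _ = 16 * (ε ^ 2 * A c) := by ring
  have hXD2 : ∀ c, XD c ^ 2 ≤ 4 * (ε ^ 2 * A c) := by
    intro c
    have := csw H a oD (fun v => x v c) (fun v => e v c) 1 (ε ^ 2 * A c) ha (fun v => he v c)
      (by norm_num) hoDb hoDH ha1 (heH c)
    calc XD c ^ 2 ≤ 4 * 1 * (ε ^ 2 * A c) := this
      _ = 4 * (ε ^ 2 * A c) := by ring
  -- d
  have hd2 : ∀ c, d c ^ 2 ≤ (4 * (1 - y) + 24 * ε) * A c := by
    intro c
    set f : ℝ := ∑ v, sg v * x v c with hf
    set g : ℝ := ∑ v, (1 - sg v) * x v c with hg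
    have e1 : d c = f + g := by
      rw [hd c, hf, hg, ← Finset.sum_add_distrib]
      exact Finset.sum_congr rfl fun v _ => by ring
    have e2 : f ^ 2 ≤ 4 * (ε ^ 2 * A c) := by
      have := csw H a sg (fun v => x v c) (fun v => e v c) 1 (ε ^ 2 * A c) ha (fun v => he v c)
        (by norm_num) (fun v => by nlinarith [(hsg01 v).1, (hsg01 v).2]) hsgH ha1 (heH c)
      calc f ^ 2 ≤ 4 * 1 * (ε ^ 2 * A c) := this
        _ = 4 * (ε ^ 2 * A c) := by ring
    have e3 : g ^ 2 ≤ 4 * (1 - y) * ((1 + ε) * A c) := by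
      have e4 := Finset.sum_sq_le_sum_mul_sum_of_sq_le_mul Finset.univ
        (r := fun v => (1 - sg v) * x v c) (f := fun v => 4 * ((1 - sg v) * a v))
        (g := fun v => e v c)
        (fun v _ => mul_nonneg (by norm_num) (mul_nonneg (by linarith [(hsg01 v).2]) (ha v)))
        (fun v _ => (he v c).1)
        (fun v _ => by
          have q1 := (he v c).2
          have q2 := hsg01 v
          have q3 : (1 - sg v) ^ 2 ≤ 1 - sg v := by nlinarith
          have q5 : 0 ≤ 4 * (a v * e v c) := le_trans (sq_nonneg _) q1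
          have q6 : 0 ≤ 1 - sg v := by linarith [q2.2]
          calc ((1 - sg v) * x v c) ^ 2 = (1 - sg v) ^ 2 * x v c ^ 2 := by ring
            _ ≤ (1 - sg v) * (4 * (a v * e v c)) := by gcongr
            _ = 4 * ((1 - sg v) * a v) * e v c := by ring)
      have e5 : ∑ v, 4 * ((1 - sg v) * a v) = 4 * (1 - y) := by
        rw [← Finset.mul_sum]
        congr 1
        have : ∀ v, (1 - sg v) * a v = a v - sg v * a v := fun v => by ring
        rw [Finset.sum_congr rfl fun v _ => this v, Finset.sum_sub_distrib, ha1, hsgy]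
      rw [e5] at e4
      refine e4.trans ?_
      exact mul_le_mul_of_nonneg_left (hes c) (by linarith)
    have e4 : |f * g| ≤ 6 * ε * A c := by
      refine abs_mul_le_of_sq e2 (q := 8 * A c) (e3.trans ?_) ?_ ?_
      · have : (1 - y) * (1 + ε) ≤ 2 := by nlinarith
        nlinarith [hA c]
      · have := hA c; positivity
      · nlinarith [mul_nonneg (sq_nonneg ε) (sq_nonneg (A c))]
    have e5 := (abs_le.1 e4).2
    rw [e1]
    have e6 : (f + g) ^ 2 = f ^ 2 + 2 * (f * g) + g ^ 2 := by ring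
    rw [e6]
    have e7 : 4 * (ε ^ 2 * A c) ≤ 4 * ε * A c := by
      have : ε ^ 2 ≤ ε := by nlinarith
      nlinarith [hA c]
    have e8 : 4 * (1 - y) * ((1 + ε) * A c) ≤ 4 * (1 - y) * A c + 4 * ε * A c := by
      have : 0 ≤ ε * A c := mul_nonneg hε (hA c)
      nlinarith
    nlinarith [mul_nonneg hε (hA c)]
  have hd8 : ∀ c, d c ^ 2 ≤ 8 * A c := by
    intro c
    refine (hd2 c).trans ?_
    refine mul_le_mul_of_nonneg_right ?_ (hA c)
    linarith
  have hE2b : E2 ≤ (4 * (1 - y) + 24 * ε) * At := by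
    rw [hE2, hAt, Finset.mul_sum]
    exact Finset.sum_le_sum fun c _ => hd2 c
  have hE28 : E2 ≤ 8 * At := by
    rw [hE2, hAt, Finset.mul_sum]
    exact Finset.sum_le_sum fun c _ => hd8 c
  have hXd : ∀ c, |Xo c * d c| ≤ 12 * ε * A c := by
    intro c
    refine abs_mul_le_of_sq (hXo2 c) (hd8 c) (by have := hA c; positivity) ?_
    nlinarith [mul_nonneg (sq_nonneg ε) (sq_nonneg (A c))]
  have hXDd : ∀ c, |XD c * d c| ≤ 12 * ε * A c := by
    intro c
    refine abs_mul_le_of_sq (hXD2 c) (hd8 c) (by have := hA c; positivity) ?_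
    nlinarith [mul_nonneg (sq_nonneg ε) (sq_nonneg (A c))]
  -- sums of la
  have sumla : ∀ o' : W → ℝ, ∑ v, o' v * la v = (∑ c, ∑ v, o' v * e v c) - (∑ v, o' v * s v) +
      (∑ v, o' v * er v) - (∑ v, o' v * a v) * J - (∑ c, (∑ v, o' v * x v c) * d c) +
      (∑ v, o' v * a v) * E2 := by
    intro o'
    have e1 : ∀ v, o' v * la v = (∑ c, o' v * e v c) - o' v * s v + o' v * er v -
        o' v * a v * J - (∑ c, o' v * x v c * d c) + o' v * a v * E2 := by
      intro v
      rw [hla v, ← Finset.mul_sum]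
      have : ∑ c, o' v * x v c * d c = o' v * ∑ c, x v c * d c := by
        rw [Finset.mul_sum]; exact Finset.sum_congr rfl fun c _ => by ring
      rw [this]
      ring
    rw [Finset.sum_congr rfl fun v _ => e1 v]
    rw [Finset.sum_add_distrib, Finset.sum_sub_distrib, Finset.sum_sub_distrib,
      Finset.sum_add_distrib, Finset.sum_sub_distrib, ← Finset.sum_mul, ← Finset.sum_mul]
    have e2 : ∑ v, ∑ c, o' v * e v c = ∑ c, ∑ v, o' v * e v c := Finset.sum_comm
    have e3 : ∑ v, ∑ c, o' v * x v c * d c = ∑ c, (∑ v, o' v * x v c) * d c := by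
      rw [Finset.sum_comm]
      exact Finset.sum_congr rfl fun c _ => by rw [Finset.sum_mul]
    rw [e2, e3]
  have homs' : ∑ v, om v * s v = At := by
    rw [← hsA]
    refine Finset.sum_congr rfl fun v _ => ?_
    by_cases h : v ∈ D
    · simp only [hom]; rw [if_pos h, one_mul]
    · rw [(hs v).2 h, mul_zero]
  have hoDs : ∑ v, oD v * s v = At := by
    rw [← hsA]
    refine Finset.sum_congr rfl fun v _ => ?_
    by_cases h : v ∈ D
    · simp only [hoD]; rw [if_pos h, one_mul]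
    · rw [(hs v).2 h, mul_zero]
  have hT1 : ∀ o' : W → ℝ, (∀ v, |o' v| ≤ 2) → (∀ v, v ∉ H → o' v = 0) →
      |∑ c, ∑ v, o' v * e v c| ≤ 2 * ε * At := by
    intro o' h1 h2
    refine (Finset.abs_sum_le_sum_abs _ _).trans ?_
    rw [hAt, Finset.mul_sum]
    refine Finset.sum_le_sum fun c _ => ?_
    have e1 : ∑ v, o' v * e v c = ∑ v ∈ H, o' v * e v c := by
      symm
      refine Finset.sum_subset (Finset.subset_univ H) fun v _ hv => ?_
      rw [h2 v hv, zero_mul]
    rw [e1]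
    refine (Finset.abs_sum_le_sum_abs _ _).trans ?_
    have e2 : ∑ v ∈ H, |o' v * e v c| ≤ ∑ v ∈ H, 2 * e v c := by
      refine Finset.sum_le_sum fun v _ => ?_
      rw [abs_mul, abs_of_nonneg (he v c).1]
      exact mul_le_mul_of_nonneg_right (h1 v) (he v c).1
    refine e2.trans ?_
    rw [← Finset.mul_sum]
    have e3 := heH c
    have e4 : ε ^ 2 * A c ≤ ε * A c := by
      have : ε ^ 2 ≤ ε := by nlinarith
      exact mul_le_mul_of_nonneg_right this (hA c)
    linarith
  have homb2 : ∀ v, |om v| ≤ 2 := fun v => (homb v).trans (by linarith)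
  have hoDb2 : ∀ v, |oD v| ≤ 1 := by
    intro v; simp only [hoD]; split_ifs <;> simp
  have hTer : ∀ (o' : W → ℝ) (k : ℝ), (∀ v, |o' v| ≤ k) → |∑ v, o' v * er v| ≤ k * Er := by
    intro o' k h1
    refine (Finset.abs_sum_le_sum_abs _ _).trans ?_
    rw [hEr, Finset.mul_sum]
    refine Finset.sum_le_sum fun v _ => ?_
    rw [abs_mul]
    exact mul_le_mul_of_nonneg_right (h1 v) (abs_nonneg _)
  -- second order term
  set T7 : ℝ := ∑ v ∈ R, z v / 2 * ∑ c, da v c ^ 2 with hT7
  have hT7b : T7 ≤ 16 * ε * At := by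
    have e0 : ∀ v ∈ R, z v / 2 * ∑ c, da v c ^ 2 ≤ ∑ c, ε * (4 * e v c + 8 * (a v * A c)) := by
      intro v hv
      rw [Finset.mul_sum]
      refine Finset.sum_le_sum fun c _ => ?_
      have q1 : da v c ^ 2 ≤ a v * (8 * e v c + 16 * (a v * A c)) := by
        have q2 := (he v c).2
        have q3 := hd8 c
        rw [hda v c]
        have q4 : (-x v c + a v * d c) ^ 2 ≤ 2 * x v c ^ 2 + 2 * (a v ^ 2 * d c ^ 2) := by
          nlinarith [sq_nonneg (x v c + a v * d c)]
        have q5 : a v ^ 2 * d c ^ 2 ≤ a v ^ 2 * (8 * A c) :=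
          mul_le_mul_of_nonneg_left q3 (sq_nonneg _)
        nlinarith
      have q6 : |a v * z v| ≤ ε := (hR v hv).2.2.2.1
      have q7 : 0 ≤ 8 * e v c + 16 * (a v * A c) := by
        have := (he v c).1; have := mul_nonneg (ha v) (hA c); linarith
      calc z v / 2 * da v c ^ 2 ≤ |z v| / 2 * da v c ^ 2 := by
            refine mul_le_mul_of_nonneg_right ?_ (sq_nonneg _)
            linarith [le_abs_self (z v)]
        _ ≤ |z v| / 2 * (a v * (8 * e v c + 16 * (a v * A c))) := by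
            refine mul_le_mul_of_nonneg_left q1 (by positivity)
        _ = |a v * z v| / 2 * (8 * e v c + 16 * (a v * A c)) := by
            rw [abs_mul, abs_of_nonneg (ha v)]; ring
        _ ≤ ε / 2 * (8 * e v c + 16 * (a v * A c)) := by
            refine mul_le_mul_of_nonneg_right (by linarith) q7
        _ = ε * (4 * e v c + 8 * (a v * A c)) := by ring
    have e1 : ∑ v ∈ R, ∑ c, ε * (4 * e v c + 8 * (a v * A c)) ≤
        ∑ v, ∑ c, ε * (4 * e v c + 8 * (a v * A c)) := by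
      refine Finset.sum_le_sum_of_subset_of_nonneg (Finset.subset_univ _) fun v _ _ => ?_
      refine Finset.sum_nonneg fun c _ => mul_nonneg hε ?_
      have := (he v c).1; have := mul_nonneg (ha v) (hA c); linarith
    have e2 : ∑ v, ∑ c, ε * (4 * e v c + 8 * (a v * A c)) =
        ∑ c, ε * (4 * (∑ v, e v c) + 8 * A c) := by
      rw [Finset.sum_comm]
      refine Finset.sum_congr rfl fun c _ => ?_
      rw [← Finset.mul_sum, Finset.sum_add_distrib, ← Finset.mul_sum, ← Finset.mul_sum,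
        ← Finset.sum_mul, ha1, one_mul]
    refine (Finset.sum_le_sum e0).trans (e1.trans ?_)
    rw [e2, hAt, Finset.mul_sum]
    refine Finset.sum_le_sum fun c _ => ?_
    have q1 := hes c
    have q2 : (1 + ε) * A c ≤ 2 * A c := mul_le_mul_of_nonneg_right (by linarith) (hA c)
    have q3 : 4 * (∑ v, e v c) + 8 * A c ≤ 16 * A c := by linarith
    calc ε * (4 * (∑ v, e v c) + 8 * A c) ≤ ε * (16 * A c) := mul_le_mul_of_nonneg_left q3 hε
      _ = 16 * ε * A c := by ring
  -- ly, lm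
  have hly2 : ly = (∑ c, ∑ v, om v * e v c) - At + (∑ v, om v * er v) - Y * J -
      (∑ c, Xo c * d c) + Y * E2 + T7 := by
    have e1 : ly = (∑ v, om v * la v) + T7 := by
      rw [hly, hlm, sumom, hT7, Finset.sum_add_distrib]
      ring
    rw [e1, sumla om, homs']
  have hlm2 : lm = (∑ c, ∑ v, oD v * e v c) - At + (∑ v, oD v * er v) - m * J -
      (∑ c, XD c * d c) + m * E2 := by
    have e1 : lm = ∑ v, oD v * la v := by rw [hlm, sumoD]
    have e2 : ∑ v, oD v * a v = m := by rw [sumoD, hm]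
    rw [e1, sumla oD, hoDs, e2]
  have hXds : |∑ c, Xo c * d c| ≤ 12 * ε * At := by
    refine (Finset.abs_sum_le_sum_abs _ _).trans ?_
    rw [hAt, Finset.mul_sum]
    exact Finset.sum_le_sum fun c _ => hXd c
  have hXDds : |∑ c, XD c * d c| ≤ 12 * ε * At := by
    refine (Finset.abs_sum_le_sum_abs _ _).trans ?_
    rw [hAt, Finset.mul_sum]
    exact Finset.sum_le_sum fun c _ => hXDd c
  have hεA : 0 ≤ ε * At := mul_nonneg hε hAt0
  have hYJ : |Y * J| ≤ 2 * (ε * At + Er) := by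
    rw [abs_mul]
    exact mul_le_mul hYb hJb (abs_nonneg _) (by norm_num)
  have hlyb : ly ≤ -At + y * E2 + 40 * ε * At + 4 * Er := by
    have q1 := (abs_le.1 (hT1 om homb2 homH)).2
    have q2 := (abs_le.1 (hTer om 2 homb2)).2
    have q3 := (abs_le.1 hYJ).1
    have q4 := (abs_le.1 hXds).1
    have q5 : (Y - y) * E2 ≤ ε * (8 * At) := by
      calc (Y - y) * E2 ≤ ε * E2 := mul_le_mul_of_nonneg_right hYy'.2 hE20
        _ ≤ ε * (8 * At) := mul_le_mul_of_nonneg_left hE28 hε
    have q6 : Y * E2 ≤ y * E2 + 8 * (ε * At) := by nlinarith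
    rw [hly2]
    nlinarith
  have hlmb : -At - 15 * (ε * At) - 2 * Er ≤ lm := by
    have q1 := (abs_le.1 (hT1 oD (fun v => (hoDb2 v).trans (by norm_num)) hoDH)).1
    have q2 := (abs_le.1 (hTer oD 1 hoDb2)).1
    have q3 : |m * J| ≤ ε * At + Er := by
      rw [abs_mul, abs_of_nonneg hm0]
      calc m * |J| ≤ 1 * |J| := mul_le_mul_of_nonneg_right (hmy.trans hy1) (abs_nonneg _)
        _ ≤ ε * At + Er := by rw [one_mul]; exact hJb
    have q4 := (abs_le.1 q3).2
    have q5 := (abs_le.1 hXDds).2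
    have q6 : 0 ≤ m * E2 := mul_nonneg hm0 hE20
    rw [hlm2]
    linarith
  -- dy
  have hdy2 : ∀ c, dy c = -Xo c + Y * d c := by
    intro c
    rw [hdy c, hdm c, ← sumom fun v => da v c, hXo, hY, Finset.sum_mul, ← Finset.sum_neg_distrib,
      ← Finset.sum_add_distrib]
    exact Finset.sum_congr rfl fun v _ => by rw [hda v c]; ring
  have hdm2 : ∀ c, dm c = -XD c + m * d c := by
    intro c
    have e2 : ∑ v, oD v * a v = m := by rw [sumoD, hm]
    rw [hdm c, ← sumoD fun v => da v c, hXD, ← e2, Finset.sum_mul, ← Finset.sum_neg_distrib,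
      ← Finset.sum_add_distrib]
    exact Finset.sum_congr rfl fun v _ => by rw [hda v c]; ring
  have hdyl : y ^ 2 * E2 - 72 * (ε * At) ≤ ∑ c, dy c ^ 2 := by
    have e1 : ∀ c, y ^ 2 * d c ^ 2 - 72 * (ε * A c) ≤ dy c ^ 2 := by
      intro c
      rw [hdy2 c]
      have q1 : |Y * (Xo c * d c)| ≤ 2 * (12 * ε * A c) := by
        rw [abs_mul]
        exact mul_le_mul hYb (hXd c) (abs_nonneg _) (by norm_num)
      have q2 := (abs_le.1 q1).2
      have q3 : -(3 * ε) ≤ Y ^ 2 - y ^ 2 := by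
        have r1 : Y ^ 2 - y ^ 2 = (Y - y) * (Y + y) := by ring
        have r2 : |(Y - y) * (Y + y)| ≤ ε * 3 := by
          rw [abs_mul]
          refine mul_le_mul hYy ?_ (abs_nonneg _) hε
          rw [abs_le]; constructor <;> linarith [hYy'.1, hYy'.2]
        have r3 := (abs_le.1 r2).1
        rw [r1]; linarith
      have q4 : -(3 * ε) * (8 * A c) ≤ (Y ^ 2 - y ^ 2) * d c ^ 2 := by
        have r1 : -(3 * ε) * (8 * A c) ≤ -(3 * ε) * d c ^ 2 := by
          have := hd8 c
          nlinarith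
        exact r1.trans (mul_le_mul_of_nonneg_right q3 (sq_nonneg _))
      have q5 : (-Xo c + Y * d c) ^ 2 = Xo c ^ 2 - 2 * (Y * (Xo c * d c)) + Y ^ 2 * d c ^ 2 := by
        ring
      rw [q5]
      nlinarith [sq_nonneg (Xo c)]
    calc y ^ 2 * E2 - 72 * (ε * At) = ∑ c, (y ^ 2 * d c ^ 2 - 72 * (ε * A c)) := by
          rw [Finset.sum_sub_distrib, ← Finset.mul_sum, hE2, hAt, Finset.mul_sum, Finset.mul_sum]
          congr 1
          rw [← Finset.mul_sum, Finset.mul_sum, Finset.mul_sum]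
      _ ≤ ∑ c, dy c ^ 2 := Finset.sum_le_sum fun c _ => e1 c
  refine ⟨hm0, hmy, hy1, ?_, ?_⟩
  · -- the drift
    have q0 : 0 ≤ 3 - 2 * y := by linarith
    have q1 : (3 - 2 * y) * ly ≤ (3 - 2 * y) * (-At + y * E2) + 3 * (40 * (ε * At) + 4 * Er) := by
      have r1 : (3 - 2 * y) * ly ≤ (3 - 2 * y) * (-At + y * E2 + (40 * (ε * At) + 4 * Er)) := by
        refine mul_le_mul_of_nonneg_left ?_ q0
        linarith
      have r2 : (3 - 2 * y) * (40 * (ε * At) + 4 * Er) ≤ 3 * (40 * (ε * At) + 4 * Er) := by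
        refine mul_le_mul_of_nonneg_right (by linarith) (by linarith)
      linarith [mul_add (3 - 2 * y) (-At + y * E2) (40 * (ε * At) + 4 * Er)]
    have q2 : 3 * (y * (1 - y)) * E2 ≤ (12 * y * (1 - y) ^ 2 + 18 * ε) * At := by
      have r1 : 0 ≤ 3 * (y * (1 - y)) := by
        have := mul_nonneg hy0 (sub_nonneg.2 hy1); linarith
      have r2 := mul_le_mul_of_nonneg_left hE2b r1
      have r3 : y * (1 - y) ≤ 1 / 4 := by nlinarith [sq_nonneg (y - 1 / 2)]
      have r4 : 3 * (y * (1 - y)) * (24 * ε * At) ≤ 18 * ε * At := by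
        have : 0 ≤ ε * At := hεA
        nlinarith
      have r5 : 3 * (y * (1 - y)) * ((4 * (1 - y) + 24 * ε) * At) =
          12 * y * (1 - y) ^ 2 * At + 3 * (y * (1 - y)) * (24 * ε * At) := by ring
      have r6 : (12 * y * (1 - y) ^ 2 + 18 * ε) * At = 12 * y * (1 - y) ^ 2 * At + 18 * ε * At := by
        ring
      rw [r6]; rw [r5] at r2
      linarith
    have q3 := poly hy0 hy1
    have q4 : (-(3 - 2 * y) + 12 * y * (1 - y) ^ 2) * At ≤ -(2 / 5) * At :=
      mul_le_mul_of_nonneg_right (by linarith) hAt0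
    have q5 : ε * At ≤ 1 / 3000 * At := mul_le_mul_of_nonneg_right hε0 hAt0
    have q6 : (3 - 2 * y) * (-At + y * E2) - y ^ 2 * E2 =
        -(3 - 2 * y) * At + 3 * (y * (1 - y)) * E2 := by ring
    have q7 : -lm / 10 ≤ (At + 15 * (ε * At) + 2 * Er) / 10 := by linarith
    nlinarith
  · -- the gradient
    have e1 : ∀ c, ((3 - 2 * y) * dy c - dm c / 10) ^ 2 ≤ 2000 * A c := by
      intro c
      have q1 : dy c ^ 2 ≤ 96 * A c := by
        rw [hdy2 c]
        have r1 := hXo2 c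
        have r2 := hd8 c
        have r3 : Y ^ 2 ≤ 4 := by nlinarith [abs_nonneg Y, sq_abs Y]
        have r4 : ε ^ 2 * A c ≤ 1 * A c :=
          mul_le_mul_of_nonneg_right (by nlinarith) (hA c)
        have r5 : (-Xo c + Y * d c) ^ 2 ≤ 2 * Xo c ^ 2 + 2 * (Y ^ 2 * d c ^ 2) := by
          nlinarith [sq_nonneg (Xo c + Y * d c)]
        have r6 : Y ^ 2 * d c ^ 2 ≤ 4 * (8 * A c) :=
          mul_le_mul r3 r2 (sq_nonneg _) (by norm_num)
        linarith
      have q2 : dm c ^ 2 ≤ 96 * A c := by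
        rw [hdm2 c]
        have r1 := hXD2 c
        have r2 := hd8 c
        have r3 : m ^ 2 ≤ 1 := by nlinarith
        have r4 : ε ^ 2 * A c ≤ 1 * A c :=
          mul_le_mul_of_nonneg_right (by nlinarith) (hA c)
        have r5 : (-XD c + m * d c) ^ 2 ≤ 2 * XD c ^ 2 + 2 * (m ^ 2 * d c ^ 2) := by
          nlinarith [sq_nonneg (XD c + m * d c)]
        have r6 : m ^ 2 * d c ^ 2 ≤ 1 * (8 * A c) :=
          mul_le_mul r3 r2 (sq_nonneg _) (by norm_num)
        have := hA c
        linarith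
      have q3 : ((3 - 2 * y) * dy c - dm c / 10) ^ 2 ≤
          2 * ((3 - 2 * y) ^ 2 * dy c ^ 2) + 2 * (dm c ^ 2 / 100) := by
        nlinarith [sq_nonneg ((3 - 2 * y) * dy c + dm c / 10)]
      have q4 : (3 - 2 * y) ^ 2 ≤ 9 := by nlinarith
      have q5 : (3 - 2 * y) ^ 2 * dy c ^ 2 ≤ 9 * (96 * A c) :=
        mul_le_mul q4 q1 (sq_nonneg _) (by norm_num)
      have := hA c
      linarith
    calc ∑ c, ((3 - 2 * y) * dy c - dm c / 10) ^ 2 ≤ ∑ c, 2000 * A c :=
          Finset.sum_le_sum fun c _ => e1 c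
      _ = 2000 * ∑ c, A c := by rw [Finset.mul_sum]

end Pool.Agent.KIL.H38
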