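import Pool.Agent.KIL.Stmts

/-!
# One round of the pre-kills
-/

set_option autoImplicit false

open MeasureTheory ProbabilityTheory Function Filter

open scoped ENNReal BigOperators Topology NNReal Matrix

noncomputable section

namespace Pool.Agent.KIL.H38

open Pool.Agent.LE.QF (HJ HM gG LL dC JalStmt)

/-! ### the exponential of a jet -/

theorem hj_exp (hJ : JalStmt) {ι : Type} [Fintype ι] [DecidableEq ι] (q : ℝ × (ι → ℝ))
    (P : ℝ × (ι → ℝ) → ℝ) (v l : ℝ) (g : ι → ℝ) (h : HJ P q v g l) (m lam β T : ℝ) :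
    HJ (fun r => m * Real.exp (lam * (P r - 2) + β * (T - r.1))) q
      (m * Real.exp (lam * (v - 2) + β * (T - q.1)))
      (fun c => m * Real.exp (lam * (v - 2) + β * (T - q.1)) * (lam * g c))
      (m * Real.exp (lam * (v - 2) + β * (T - q.1)) * (lam * l - β +
        1 / 2 * ∑ c, (lam * g c) ^ 2)) := by
  obtain ⟨j1, j2, j3, j4, j5, j6, j7, j8⟩ := hJ ι ℝ q
  -- the exponent
  have ht : HJ (fun r : ℝ × (ι → ℝ) => (β * (T - r.1) - 2 * lam : ℝ)) q
      (β * (T - q.1) - 2 * lam) (fun _ => 0) (deriv (fun t : ℝ => β * (T - t) - 2 * lam) q.1) := by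
    refine j7 (fun t : ℝ => β * (T - t) - 2 * lam) ?_
    fun_prop
  have hd : deriv (fun t : ℝ => β * (T - t) - 2 * lam) q.1 = -β := by
    have h1 : HasDerivAt (fun t : ℝ => β * (T - t) - 2 * lam) (β * (0 - 1)) q.1 :=
      (((hasDerivAt_const q.1 T).sub (hasDerivAt_id q.1)).const_mul β).sub_const _
    rw [h1.deriv]; ring
  rw [hd] at ht
  have hl := (j3 (fun _ => lam) P lam v 0 l (fun _ => 0) g (j1 lam) h).2.2
  have hE := (j3 _ _ _ _ _ _ _ _ hl ht).1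
  have hX := (j5 _ _ _ _ hE).2 Real.exp Real.contDiff_exp.contDiffAt
  have hM := (j3 (fun _ => m) _ m _ 0 _ (fun _ => 0) _ (j1 m) hX).2.2
  have e0 : ∀ r : ℝ × (ι → ℝ), lam * P r + (β * (T - r.1) - 2 * lam) =
      lam * (P r - 2) + β * (T - r.1) := fun r => by ring
  have e1 : lam * v + (β * (T - q.1) - 2 * lam) = lam * (v - 2) + β * (T - q.1) := by ring
  rw [Real.deriv_exp, Real.deriv_exp, e1] at hM
  have e2 : (fun r => m * Real.exp (lam * P r + (β * (T - r.1) - 2 * lam))) =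
      fun r => m * Real.exp (lam * (P r - 2) + β * (T - r.1)) := by
    funext r; rw [e0 r]
  rw [e2] at hM
  refine ⟨hM.sm, hM.vl, fun c => ?_, ?_⟩
  · rw [hM.gr c]
    ring
  · rw [hM.ge]
    simp only [zero_mul, add_zero, Finset.sum_const_zero]
    have : ∀ c, (lam * g c + v * 0 + 0) ^ 2 = (lam * g c) ^ 2 := fun c => by ring
    have e3 : (∑ x, (lam * g x + v * 0 + 0) ^ 2) = ∑ c, (lam * g c) ^ 2 :=
      Finset.sum_congr rfl fun c _ => this c
    ring_nf at e3 ⊢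

/-! ### sums -/

theorem sum_ne {X : Type} [Fintype X] [DecidableEq X] (o : X) (f : X → ℝ) :
    ∑ v : {v : X // v ≠ o}, f v = ∑ v ∈ Finset.univ.erase o, f v := by
  exact (Finset.sum_subtype (p := fun v => v ≠ o) (Finset.univ.erase o) (fun x => by simp) f).symm

theorem sum_sub {X : Type} [Fintype X] [DecidableEq X] (o : X) (S : Finset X) (hS : o ∉ S)
    (f : X → ℝ) : ∑ v ∈ S.subtype (fun v => v ≠ o), f v = ∑ v ∈ S, f v :=
  Finset.sum_subtype_of_mem f fun _ hx h => hS (h ▸ hx)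

theorem sum_img {ι X : Type} [Fintype ι] [DecidableEq ι] [Fintype X] [DecidableEq X] (o : X)
    (e : ι → X) (he : Injective e) (ho : ∀ c, e c ≠ o) (f : X → ℝ) :
    ∑ v ∈ Finset.univ.image (fun c => (⟨e c, ho c⟩ : {v : X // v ≠ o})), f v = ∑ c, f (e c) := by
  rw [Finset.sum_image fun a _ b _ h => he (Subtype.ext_iff.1 h)]

/-- the number of the heavy sites -/
theorem card_heavy {X : Type} [DecidableEq X] (S U : Finset X) (a : X → ℝ) (t : ℝ)
    (ht : 0 < t) (ha : ∀ v, 0 ≤ a v) (h1 : ∑ v ∈ U, a v = 1) (hS : S ⊆ U) :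
    ((S.filter fun v => t < a v).card : ℝ) ≤ 1 / t := by
  rw [le_div_iff₀ ht, ← h1]
  calc ((S.filter fun v => t < a v).card : ℝ) * t = ∑ v ∈ S.filter (fun v => t < a v), t := by
        rw [Finset.sum_const, nsmul_eq_mul]
    _ ≤ ∑ v ∈ S.filter (fun v => t < a v), a v :=
        Finset.sum_le_sum fun v hv => (Finset.mem_filter.1 hv).2.le
    _ ≤ ∑ v ∈ U, a v := Finset.sum_le_sum_of_subset_of_nonneg
        ((Finset.filter_subset _ _).trans hS) fun v _ _ => ha v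

/-- the elementary inequality for the error of the gauge -/
theorem er_le {CK E R A : ℝ} (hC : 1 ≤ CK) (hR : 0 ≤ R) (hA : 0 ≤ A)
    (h : E ^ 2 ≤ 4 * R * A) : CK * E ≤ A / 10 + 10 * CK ^ 2 * R := by
  have h1 : 0 ≤ A / 10 + 10 * CK ^ 2 * R := by positivity
  refine abs_le_of_sq_le_sq' ?_ h1 |>.2
  have h2 : (CK * E) ^ 2 ≤ CK ^ 2 * (4 * R * A) := by
    rw [mul_pow]; exact mul_le_mul_of_nonneg_left h (sq_nonneg _)
  nlinarith [sq_nonneg (A / 10 - 10 * CK ^ 2 * R)]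

/-- the estimates at a good point -/
theorem pt (hKnb : KnbStmt) {ε₁ CK : ℝ} (hCK : 1 ≤ CK)
    (hKal : ∀ (W ι : Type) [Fintype W] [Fintype ι] [DecidableEq W]
    (D R H : Finset W) (a p w z er s : W → ℝ) (x e : W → ι → ℝ) (A : ι → ℝ) (ε : ℝ),
    0 ≤ ε → ε ≤ ε₁ → Disjoint D R → D ⊆ H →
    (∀ v, 0 ≤ a v) → ∑ v, a v = 1 →
    (∀ v ∈ R, 0 ≤ p v ∧ p v ≤ a v ∧ |a v * w v - p v| ≤ ε * a v ∧ |a v * z v| ≤ ε ∧ |w v| ≤ 1 + ε ∧
      (v ∉ H → p v = 0 ∧ w v = 0 ∧ z v = 0)) →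
    (∀ c, 0 ≤ A c) → (∀ v c, 0 ≤ e v c ∧ x v c ^ 2 ≤ 4 * (a v * e v c)) →
    (∀ c, ∑ v ∈ H, e v c ≤ ε ^ 2 * A c) → (∀ c, |∑ v, e v c - A c| ≤ ε * A c) →
    (∀ v, 0 ≤ s v ∧ (v ∉ D → s v = 0)) → ∑ v, s v = ∑ c, A c →
    ∀ (d : ι → ℝ) (da : W → ι → ℝ) (la : W → ℝ) (y m ly lm : ℝ) (dy dm : ι → ℝ),
      (∀ c, d c = ∑ v, x v c) → (∀ v c, da v c = -x v c + a v * d c) →
      (∀ v, la v = (∑ c, e v c) - s v + er v - a v * ((∑ v', ((∑ c, e v' c) + er v')) - ∑ c, A c) -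
        (∑ c, x v c * d c) + a v * ∑ c, d c ^ 2) →
      m = ∑ v ∈ D, a v → y = m + ∑ v ∈ R, p v → (∀ c, dm c = ∑ v ∈ D, da v c) →
      (∀ c, dy c = dm c + ∑ v ∈ R, w v * da v c) → lm = ∑ v ∈ D, la v →
      ly = lm + ∑ v ∈ R, (w v * la v + z v / 2 * ∑ c, da v c ^ 2) →
        0 ≤ m ∧ m ≤ y ∧ y ≤ 1 ∧
        (3 - 2 * y) * ly - ∑ c, dy c ^ 2 - lm / 10 ≤ -(∑ c, A c) / 5 + CK * ∑ v, |er v| ∧
        ∑ c, ((3 - 2 * y) * dy c - dm c / 10) ^ 2 ≤ CK * ∑ c, A c)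
    {ι X : Type} [Fintype ι] [DecidableEq ι] [Fintype X] [DecidableEq X] (e : ι → X)
    (G : Matrix X X ℂ) (κ g : X → ℝ) (μ : ι → ℂ) (Rn : Finset X) (o : X) (κs g₀ δ Lc t₀ t₁ ε : ℝ)
    (θ : ℝ → ℝ) (he : Injective e) (hG : KGd e G κ g μ Rn o κs g₀ δ Lc) (hg : 0 < gam κ G o)
    (ht : 0 < t₀) (hε : 0 ≤ ε) (hε1 : ε ≤ ε₁) (hθ : Cut θ t₀ t₁ ε)
    (hι : (Fintype.card ι : ℝ) ≤ 1 / t₀) (hδ : 2 * δ / g₀ ≤ ε)
    (hκ : κs * Real.sqrt (2 / t₀ * Lc) / g₀ ≤ ε ^ 2)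
    (y m ly lm : ℝ) (dy dm : ι → ℝ) (hm : m = ∑ c, aa κ G o (e c)) (hy : y = ym e θ Rn κ G o)
    (hdm : ∀ c, dm c = ∑ c', da e κ G o (e c') c)
    (hdy : ∀ c, dy c = dm c + ∑ v ∈ Rn.filter (fun v => ∀ c, e c ≠ v),
        deriv θ (aa κ G o v) * da e κ G o v c)
    (hlm : lm = ∑ c, la e κ g G μ o (e c))
    (hly : ly = lm + ∑ v ∈ Rn.filter (fun v => ∀ c, e c ≠ v),
      (deriv θ (aa κ G o v) * la e κ g G μ o v +
        deriv (deriv θ) (aa κ G o v) / 2 * ∑ c, da e κ G o v c ^ 2)) :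
    0 ≤ m ∧ m ≤ y ∧ y ≤ 1 ∧
      (3 - 2 * y) * ly - ∑ c, dy c ^ 2 - lm / 10 ≤ -(∑ c, AA e κ g G o c) / 10 +
        10 * CK ^ 2 * (Real.sqrt ((Fintype.card ι : ℝ) * Real.sqrt ((Fintype.card ι : ℝ) * Lc)) *
          δ ^ 2 / g₀) ∧
      ∑ c, ((3 - 2 * y) * dy c - dm c / 10) ^ 2 ≤ CK * ∑ c, AA e κ g G o c := by
  obtain ⟨n1, n2, n3, n4, n5, n6, n7⟩ := hKnb ι X e G κ g μ Rn o κs g₀ δ Lc he hG hg
  have hg0 : 0 < g₀ := hG.hg.1
  have ho : ∀ c, e c ≠ o := fun c h => hG.hR.2 (h ▸ hG.hR.1 c)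
  set Rf : Finset X := Rn.filter (fun v => ∀ c, e c ≠ v) with hRf
  set Hf : Finset X := Rn.filter (fun v => (∃ c, e c = v) ∨ t₀ < aa κ G o v) with hHf
  have hoR : o ∉ Rf := fun h => hG.hR.2 (Finset.mem_filter.1 h).1
  have hoH : o ∉ Hf := fun h => hG.hR.2 (Finset.mem_filter.1 h).1
  -- the number of heavy sites
  have hcard : (Hf.card : ℝ) ≤ 2 / t₀ := by
    have h1 : Hf ⊆ Finset.univ.image e ∪ (Rn.filter fun v => t₀ < aa κ G o v) := by
      intro v hv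
      obtain ⟨hv1, hv2⟩ := Finset.mem_filter.1 hv
      rcases hv2 with ⟨c, rfl⟩ | hv2
      · exact Finset.mem_union_left _ (Finset.mem_image_of_mem _ (Finset.mem_univ _))
      · exact Finset.mem_union_right _ (Finset.mem_filter.2 ⟨hv1, hv2⟩)
    have h2 : (Hf.card : ℝ) ≤ (Fintype.card ι : ℝ) + ((Rn.filter fun v => t₀ < aa κ G o v).card : ℝ) := by
      have := (Finset.card_le_card h1).trans (Finset.card_union_le _ _)
      have h3 : (Finset.univ.image e).card ≤ Fintype.card ι := Finset.card_image_le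
      exact_mod_cast this.trans (Nat.add_le_add_right h3 _)
    have h3 := card_heavy Rn (Finset.univ.erase o) (aa κ G o) t₀ ht n1 n2 (fun v hv =>
      Finset.mem_erase.2 ⟨fun h => hG.hR.2 (h ▸ hv), Finset.mem_univ _⟩)
    have h4 : (2 : ℝ) / t₀ = 1 / t₀ + 1 / t₀ := by ring
    rw [h4]; linarith
  have key := hKal {v : X // v ≠ o} ι
    (Finset.univ.image (fun c => (⟨e c, ho c⟩ : {v : X // v ≠ o})))
    (Rf.subtype (fun v => v ≠ o)) (Hf.subtype (fun v => v ≠ o))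
    (fun v => aa κ G o v) (fun v => θ (aa κ G o v)) (fun v => deriv θ (aa κ G o v))
    (fun v => deriv (deriv θ) (aa κ G o v)) (fun v => er e κ G μ o v)
    (fun v => ∑ c, if e c = v then AA e κ g G o c else 0)
    (fun v c => xx e κ G o v c) (fun v c => ee e κ G o v c) (AA e κ g G o) ε hε hε1 ?_ ?_
    (fun v => n1 v) ?_ ?_ n3 (fun v c => n4 v c) ?_ ?_ ?_ ?_
    (dd e κ G o) (fun v c => da e κ G o v c) (fun v => la e κ g G μ o v) y m ly lm dy dm ?_ ?_ ?_ ?_ ?_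
    ?_ ?_ ?_ ?_
  · obtain ⟨k1, k2, k3, k4, k5⟩ := key
    refine ⟨k1, k2, k3, k4.trans ?_, k5⟩
    rw [sum_ne o (fun v => |er e κ G μ o v|)]
    have hA : 0 ≤ ∑ c, AA e κ g G o c := Finset.sum_nonneg fun c _ => n3 c
    have h1 := er_le (CK := CK) (E := ∑ v ∈ Finset.univ.erase o, |er e κ G μ o v|)
      (R := Real.sqrt ((Fintype.card ι : ℝ) * Real.sqrt ((Fintype.card ι : ℝ) * Lc)) *
          δ ^ 2 / g₀) (A := ∑ c, AA e κ g G o c) hCK
      (by positivity) hA (n7.trans (le_of_eq (by ring)))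
    linarith
  · rw [Finset.disjoint_left]
    intro v hv hv'
    obtain ⟨c, _, rfl⟩ := Finset.mem_image.1 hv
    exact (Finset.mem_filter.1 (Finset.mem_subtype.1 hv')).2 c rfl
  · intro v hv
    obtain ⟨c, _, rfl⟩ := Finset.mem_image.1 hv
    exact Finset.mem_subtype.2 (Finset.mem_filter.2 ⟨hG.hR.1 c, Or.inl ⟨c, rfl⟩⟩)
  · rw [sum_ne o (fun v => aa κ G o v)]; exact n2
  · intro v hv
    have hv1 := Finset.mem_filter.1 (Finset.mem_subtype.1 hv)
    have ha := n1 (v : X)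
    have hb := hθ.bd _ ha
    have hd1 := hθ.d1 _ ha
    refine ⟨hb.1, hb.2, hd1, hθ.d2 _ ha, ?_, ?_⟩
    · rcases eq_or_lt_of_le ha with h | h
      · have := (hθ.lo (aa κ G o v) (by rw [← h]; exact ht.le)).2.1
        simp only [this, abs_zero]; linarith
      · have h1 : aa κ G o v * |deriv θ (aa κ G o v)| ≤ aa κ G o v * (1 + ε) := by
          have h2 : |aa κ G o v * deriv θ (aa κ G o v)| = aa κ G o v * |deriv θ (aa κ G o v)| := by
            rw [abs_mul, abs_of_pos h]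
          rw [← h2]
          have h3 := abs_le.1 hd1
          refine abs_le.2 ⟨?_, ?_⟩
          · nlinarith [h3.1, hb.1]
          · nlinarith [h3.2, hb.2]
        exact le_of_mul_le_mul_left h1 h
    · intro hH
      have h1 : aa κ G o v ≤ t₀ := by
        by_contra h2
        exact hH (Finset.mem_subtype.2 (Finset.mem_filter.2 ⟨hv1.1, Or.inr (not_le.1 h2)⟩))
      exact hθ.lo _ h1
  · intro c
    rw [sum_sub o Hf hoH (fun v => ee e κ G o v c)]
    refine (n6 Hf (2 / t₀) (Finset.filter_subset _ _) hcard c).trans ?_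
    exact mul_le_mul_of_nonneg_right hκ (n3 c)
  · intro c
    rw [sum_ne o (fun v => ee e κ G o v c)]
    exact (n5 c).trans (mul_le_mul_of_nonneg_right hδ (n3 c))
  · intro v
    refine ⟨Finset.sum_nonneg fun c _ => by split_ifs; exacts [n3 c, le_rfl], fun hv => ?_⟩
    refine Finset.sum_eq_zero fun c _ => ?_
    rw [if_neg]
    intro h
    exact hv (Finset.mem_image.2 ⟨c, Finset.mem_univ _, Subtype.ext h⟩)
  · rw [Finset.sum_comm]
    refine Finset.sum_congr rfl fun c _ => ?_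
    rw [sum_ne o (fun v => if e c = v then AA e κ g G o c else 0)]
    rw [Finset.sum_ite_eq, if_pos (Finset.mem_erase.2 ⟨ho c, Finset.mem_univ _⟩)]
  · intro c
    rw [sum_ne o (fun v => xx e κ G o v c)]; rfl
  · intro v c; rfl
  · intro v
    rw [sum_ne o (fun v' => (∑ c, ee e κ G o v' c) + er e κ G μ o v')]; rfl
  · rw [sum_img o e he ho (fun v => aa κ G o v)]; exact hm
  · rw [sum_sub o Rf hoR (fun v => θ (aa κ G o v)), hy, hm]; rfl
  · intro c
    rw [sum_img o e he ho (fun v => da e κ G o v c)]; exact hdm c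
  · intro c
    rw [sum_sub o Rf hoR (fun v => deriv θ (aa κ G o v) * da e κ G o v c)]; exact hdy c
  · rw [sum_img o e he ho (fun v => la e κ g G μ o v)]; exact hlm
  · rw [sum_sub o Rf hoR (fun v => deriv θ (aa κ G o v) * la e κ g G μ o v +
        deriv (deriv θ) (aa κ G o v) / 2 * ∑ c, da e κ G o v c ^ 2)]; exact hly


/-! ### the cut off -/

theorem cu_cont : Continuous cu := by
  unfold cu
  fun_prop

theorem cu_mem {x : ℝ} (hx : 0 ≤ x) : 0 ≤ cu x ∧ cu x ≤ 1 := by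
  unfold cu
  have h1 : 0 ≤ max (1 - x) 0 := le_max_right _ _
  have h2 : max (1 - x) 0 ≤ 1 := max_le (by linarith) zero_le_one
  constructor
  · have : max (1 - x) 0 ^ 3 ≤ 1 := pow_le_one₀ h1 h2
    linarith
  · have := pow_nonneg h1 3
    linarith

theorem cu_one {x : ℝ} (hx : 1 ≤ x) : cu x = 1 := by
  unfold cu
  rw [max_eq_right (by linarith)]
  norm_num

/-! ### the mass -/

theorem mass {ι X : Type} [Fintype ι] [DecidableEq ι] [Fintype X] [DecidableEq X] (e : ι → X)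
    (G : Matrix X X ℂ) (κ : X → ℝ) (Rn : Finset X) (o : X) (θ : ℝ → ℝ) (t₀ t₁ ε : ℝ)
    (hθ : Cut θ t₀ t₁ ε) (he : Injective e) (heR : ∀ c, e c ∈ Rn) (hoR : o ∉ Rn)
    (hκ : ∀ v, 0 ≤ κ v) (hg : 0 < gam κ G o) :
    (∀ v, 0 ≤ aa κ G o v) ∧ 0 ≤ ∑ c, aa κ G o (e c) ∧ 0 ≤ yn e θ Rn κ G o ∧
      ym e θ Rn κ G o = ∑ c, aa κ G o (e c) + yn e θ Rn κ G o ∧ ym e θ Rn κ G o ≤ 1 := by
  have ha : ∀ v, 0 ≤ aa κ G o v := fun v =>
    div_nonneg (mul_nonneg (hκ v) (by positivity)) hg.le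
  have h1 : ∑ v ∈ Finset.univ.erase o, aa κ G o v = 1 := by
    unfold aa
    rw [← Finset.sum_div]
    exact div_self hg.ne'
  refine ⟨ha, Finset.sum_nonneg fun c _ => ha _, Finset.sum_nonneg fun v _ => (hθ.bd _ (ha v)).1,
    rfl, ?_⟩
  have h2 : ym e θ Rn κ G o ≤ ∑ c, aa κ G o (e c) +
      ∑ v ∈ Rn.filter (fun v => ∀ c, e c ≠ v), aa κ G o v := by
    unfold ym
    exact add_le_add le_rfl (Finset.sum_le_sum fun v _ => (hθ.bd _ (ha v)).2)
  have h3 : ∑ c, aa κ G o (e c) = ∑ v ∈ Finset.univ.image e, aa κ G o v := by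
    rw [Finset.sum_image fun a _ b _ h => he h]
  have hdis : Disjoint (Finset.univ.image e) (Rn.filter (fun v => ∀ c, e c ≠ v)) := by
    rw [Finset.disjoint_left]
    intro v hv hv'
    obtain ⟨c, _, rfl⟩ := Finset.mem_image.1 hv
    exact (Finset.mem_filter.1 hv').2 c rfl
  rw [h3, ← Finset.sum_union hdis] at h2
  refine h2.trans ?_
  rw [← h1]
  refine Finset.sum_le_sum_of_subset_of_nonneg ?_ fun v _ _ => ha v
  intro v hv
  refine Finset.mem_erase.2 ⟨?_, Finset.mem_univ _⟩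
  rintro rfl
  rcases Finset.mem_union.1 hv with h | h
  · obtain ⟨c, _, h'⟩ := Finset.mem_image.1 h
    exact hoR (h' ▸ heR c)
  · exact hoR (Finset.mem_filter.1 h).1

/-- KR1 -/
theorem kr1 (hJ : JalStmt) (hKja : KjaStmt) (hKnb : KnbStmt) (hKal : KalStmt) (hU : Uf3Stmt) :
    Kr1Stmt := by
  obtain ⟨ε₁, CK, hε₁, hCK, hKal⟩ := hKal
  refine ⟨ε₁, 1 / (10 * CK), CK, 5, hε₁, by positivity, ?_, hCK, by norm_num, ?_⟩
  · rw [div_le_one (by positivity)]
    linarith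
  intro ι X _ _ _ _ e Gm kp g μ Rn o T κs g₀ δ Lc t₀ t₁ ε β m θ u b hT ht₀ ht01 ht1 hε hεε hθ hb hb0
    hι hδ hκ hβ hm0 hm1 hq heR hoR
  have hbI : 0 ≤ ∫ t in (0 : ℝ)..T, b t :=
    intervalIntegral.integral_nonneg hT.le fun t _ => hb0 t
  have ho : ∀ c, e c ≠ o := fun c h => hoR (h ▸ heR c)
  rcases le_or_gt g₀ 0 with hg0 | hg0
  · -- no good points
    have hu : ∀ q : ℝ × (ι → ℝ), 0 ≤ q.1 → q.1 ≤ T → cu (u q) = 1 := by
      intro q h1 h2
      obtain ⟨_, _, _, _, _, h3⟩ := hq q h1 h2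
      refine cu_one ?_
      by_contra h4
      exact absurd (h3 (not_le.1 h4)).2.hg.1 (not_lt.2 hg0)
    have h1 : ∀ V : ι → ℝ, cu (u (T, V)) = 1 := fun V => hu (T, V) hT.le le_rfl
    simp only [h1, hu (0, 0) le_rfl hT.le, sub_self, zero_mul, zero_add, mul_one]
    rw [integral_const]
    simp only [probReal_univ, smul_eq_mul, one_mul]
    nlinarith
  have he : Injective e := (hq (0, 0) le_rfl hT.le).1.inj
  have hβ0 : 0 ≤ β := by rw [hβ]; positivity
  set lam : ℝ := 1 / (10 * CK) with hlam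
  have hlam0 : 0 < lam := by positivity
  have hlamC : lam * CK = 1 / 10 := by rw [hlam]; field_simp
  set Φ : ℝ × (ι → ℝ) → ℝ := fun r =>
    m * Real.exp (lam * (Ph e θ Rn (kp r.1) (Gm r) o - 2) + β * (T - r.1)) with hΦ
  -- bounds for `Φ`
  have hms : ∀ q : ℝ × (ι → ℝ), 0 ≤ q.1 → q.1 ≤ T → _ := fun q h1 h2 =>
    mass e (Gm q) (kp q.1) Rn o θ t₀ t₁ ε hθ he heR hoR (hq q h1 h2).2.1 (hq q h1 h2).2.2.1
  have hΦ0 : ∀ q, 0 ≤ Φ q := fun q => mul_nonneg hm0 (Real.exp_pos _).le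
  have hΦ1 : ∀ q : ℝ × (ι → ℝ), 0 ≤ q.1 → q.1 ≤ T → Φ q ≤ 1 := by
    intro q h1 h2
    obtain ⟨_, m1, m2, m3, m4⟩ := hms q h1 h2
    refine le_trans (mul_le_mul_of_nonneg_left (Real.exp_le_exp.2 ?_) hm0) hm1
    have h3 : Ph e θ Rn (kp q.1) (Gm q) o ≤ 2 := by
      unfold Ph
      have h5 : 0 ≤ ym e θ Rn (kp q.1) (Gm q) o := by rw [m3]; linarith
      nlinarith
    have h4 : lam * (Ph e θ Rn (kp q.1) (Gm q) o - 2) ≤ 0 :=
      mul_nonpos_of_nonneg_of_nonpos hlam0.le (by linarith)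
    nlinarith [mul_nonneg hβ0 h1]
  -- the jet
  have hjet : ∀ q : ℝ × (ι → ℝ), 0 ≤ q.1 → q.1 ≤ T → ∀ (y mm ly lm : ℝ) (dy dm : ι → ℝ),
      mm = ∑ c, aa (kp q.1) (Gm q) o (e c) → y = ym e θ Rn (kp q.1) (Gm q) o →
      (∀ c, dm c = ∑ c', da e (kp q.1) (Gm q) o (e c') c) →
      (∀ c, dy c = dm c + ∑ v ∈ Rn.filter (fun v => ∀ c, e c ≠ v),
        deriv θ (aa (kp q.1) (Gm q) o v) * da e (kp q.1) (Gm q) o v c) →
      lm = ∑ c, la e (kp q.1) g (Gm q) (μ q) o (e c) →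
      ly = lm + ∑ v ∈ Rn.filter (fun v => ∀ c, e c ≠ v),
        (deriv θ (aa (kp q.1) (Gm q) o v) * la e (kp q.1) g (Gm q) (μ q) o v +
        deriv (deriv θ) (aa (kp q.1) (Gm q) o v) / 2 * ∑ c, da e (kp q.1) (Gm q) o v c ^ 2) →
      HJ Φ q (Φ q) (fun c => Φ q * (lam * ((3 - 2 * y) * dy c - dm c / 10)))
        (Φ q * (lam * ((3 - 2 * y) * ly - ∑ c, dy c ^ 2 - lm / 10) - β +
          1 / 2 * ∑ c, (lam * ((3 - 2 * y) * dy c - dm c / 10)) ^ 2)) := by
    intro q h1 h2 y mm ly lm dy dm e1 e2 e3 e4 e5 e6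
    obtain ⟨hK, _, hgam, _⟩ := hq q h1 h2
    have h := hKja ι X e q Gm kp (Gm q) (kp q.1) g (μ q) o Rn θ hK ho hoR hgam hθ.sm y mm ly lm dy dm
      e1 e2 e3 e4 e5 e6
    have h3 := hj_exp hJ q _ _ _ _ h m lam β T
    have h4 : 3 * y - y ^ 2 - mm / 10 = Ph e θ Rn (kp q.1) (Gm q) o := by rw [e1, e2]; rfl
    rw [h4] at h3
    exact h3
  have main := hU ι T 2 5 b (fun _ => 0) u Φ
    (fun q => lam * Φ q * (∑ c, AA e (kp q.1) g (Gm q) o c) / 20) hT (by norm_num) (by norm_num) hb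
    continuous_const (fun t => ⟨hb0 t, le_rfl⟩) ?_
  · -- the end
    have e0 : Φ (0, 0) = m * Real.exp (β * T + lam * (Ph e θ Rn (kp 0) (Gm (0, 0)) o - 2)) := by
      simp only [hΦ, sub_zero]
      rw [add_comm]
    rw [e0] at main
    simp only [intervalIntegral.integral_zero, add_zero] at main
    refine le_trans ?_ main
    have hcont : Continuous fun V : ι → ℝ =>
        (1 - cu (u (T, V))) * Φ (T, V) + 5 * cu (u (T, V)) := by
      have hc1 : Continuous fun V : ι → ℝ => u (T, V) := by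
        rw [continuous_iff_continuousAt]
        intro V
        have h1 := (hq (T, V) hT.le le_rfl).2.2.2.2.1.continuousAt
        exact ContinuousAt.comp (f := fun V : ι → ℝ => (T, V)) (g := u) h1
          (Continuous.prodMk_right T).continuousAt
      have hc2 : Continuous fun V : ι → ℝ => Φ (T, V) := by
        rw [continuous_iff_continuousAt]
        intro V
        have h1 := (hjet (T, V) hT.le le_rfl _ _ _ _ _ _ rfl rfl (fun _ => rfl) (fun _ => rfl) rfl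
          rfl).sm.continuousAt
        exact ContinuousAt.comp (f := fun V : ι → ℝ => (T, V)) (g := Φ) h1
          (Continuous.prodMk_right T).continuousAt
      have hc3 := cu_cont.comp hc1
      exact ((continuous_const.sub hc3).mul hc2).add (continuous_const.mul hc3)
    refine integral_mono_of_nonneg (Eventually.of_forall fun V => ?_) ?_
      (Eventually.of_forall fun V => ?_)
    · have h1 := cu_mem (hq (T, V) hT.le le_rfl).2.2.2.1
      have h2 : 0 ≤ 1 - cu (u (T, V)) := by linarith [h1.2]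
      have h3 := h1.1
      simp only [Pi.zero_apply]
      positivity
    · refine Integrable.of_bound hcont.aestronglyMeasurable 6 (Eventually.of_forall fun V => ?_)
      have h1 := cu_mem (hq (T, V) hT.le le_rfl).2.2.2.1
      have h2 := hΦ0 (T, V)
      have h3 := hΦ1 (T, V) hT.le le_rfl
      rw [Real.norm_of_nonneg (by nlinarith [mul_nonneg (sub_nonneg.2 h1.2) h2])]
      nlinarith [mul_nonneg h1.1 h2]
    · have h1 := cu_mem (hq (T, V) hT.le le_rfl).2.2.2.1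
      obtain ⟨_, m1, m2, m3, m4⟩ := hms (T, V) hT.le le_rfl
      have h2 : m * Real.exp (lam * (3 * yn e θ Rn (kp T) (Gm (T, V)) o -
          yn e θ Rn (kp T) (Gm (T, V)) o ^ 2 - 2)) ≤ Φ (T, V) := by
        refine mul_le_mul_of_nonneg_left (Real.exp_le_exp.2 ?_) hm0
        simp only [sub_self, mul_zero, add_zero]
        refine mul_le_mul_of_nonneg_left (sub_le_sub_right ?_ _) hlam0.le
        unfold Ph
        simp only at m1 m2 m3 m4
        rw [m3] at m4 ⊢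
        nlinarith
      have h3 := mul_le_mul_of_nonneg_left h2 (sub_nonneg.2 h1.2)
      simp only
      linarith
  · intro q h1 h2
    obtain ⟨hK, hkp, hgam, hu0, hu1, hu2⟩ := hq q h1 h2
    have hj := hjet q h1 h2 _ _ _ _ _ _ rfl rfl (fun _ => rfl) (fun _ => rfl) rfl rfl
    refine ⟨hu0, hu1, hj.sm, hΦ0 q, hΦ1 q h1 h2, fun hlt => ?_⟩
    obtain ⟨hL, hG⟩ := hu2 hlt
    obtain ⟨p1, p2, p3, p4, p5⟩ := pt hKnb hCK hKal e (Gm q) (kp q.1) g (μ q) Rn o κs g₀ δ Lc t₀ t₁ ε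
      θ he hG hgam ht₀ hε hεε hθ hι hδ hκ _ _ _ _ _ _ rfl rfl (fun _ => rfl) (fun _ => rfl) rfl rfl
    have hS : 0 ≤ ∑ c, AA e (kp q.1) g (Gm q) o c := by
      refine Finset.sum_nonneg fun c _ => ?_
      unfold AA
      have := hG.hg.2 c
      have h3 : 0 ≤ g (e c) := by linarith [hG.hg.1]
      positivity
    -- the constant
    have hR : 10 * CK ^ 2 * (Real.sqrt ((Fintype.card ι : ℝ) * Real.sqrt ((Fintype.card ι : ℝ) * Lc)) *
          δ ^ 2 / g₀) * lam ≤ β := by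
      have h3 : Real.sqrt ((Fintype.card ι : ℝ) * Real.sqrt ((Fintype.card ι : ℝ) * Lc)) ≤
          Real.sqrt (1 / t₀ * Real.sqrt (1 / t₀ * Lc)) := by
        rcases le_total 0 Lc with h | h
        · gcongr
        · have h5 : Real.sqrt ((Fintype.card ι : ℝ) * Lc) = 0 :=
            Real.sqrt_eq_zero_of_nonpos (mul_nonpos_of_nonneg_of_nonpos (Nat.cast_nonneg _) h)
          rw [h5, mul_zero, Real.sqrt_zero]
          exact Real.sqrt_nonneg _
      have h4 : 10 * CK ^ 2 * (Real.sqrt ((Fintype.card ι : ℝ) *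
          Real.sqrt ((Fintype.card ι : ℝ) * Lc)) * δ ^ 2 / g₀) * lam =
          CK * δ ^ 2 * Real.sqrt ((Fintype.card ι : ℝ) * Real.sqrt ((Fintype.card ι : ℝ) * Lc)) / g₀ *
            (10 * (lam * CK)) := by ring
      have h6 : (10 : ℝ) * (1 / 10) = 1 := by norm_num
      rw [h4, hlamC, hβ, h6, mul_one]
      exact div_le_div_of_nonneg_right (mul_le_mul_of_nonneg_left h3 (by positivity)) hg0.le
    refine ⟨hL, ?_, ?_⟩
    · rw [hj.ge]
      set P := Φ q with hP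
      have hP0 : 0 ≤ P := hΦ0 q
      have e1 : (∑ c, (lam * ((3 - 2 * ym e θ Rn (kp q.1) (Gm q) o) * ((∑ c', da e (kp q.1) (Gm q) o
          (e c') c) + ∑ v ∈ Rn.filter (fun v => ∀ c, e c ≠ v), deriv θ (aa (kp q.1) (Gm q) o v) *
          da e (kp q.1) (Gm q) o v c) - (∑ c', da e (kp q.1) (Gm q) o (e c') c) / 10)) ^ 2) =
          lam ^ 2 * ∑ c, ((3 - 2 * ym e θ Rn (kp q.1) (Gm q) o) * ((∑ c', da e (kp q.1) (Gm q) o
          (e c') c) + ∑ v ∈ Rn.filter (fun v => ∀ c, e c ≠ v), deriv θ (aa (kp q.1) (Gm q) o v) *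
          da e (kp q.1) (Gm q) o v c) - (∑ c', da e (kp q.1) (Gm q) o (e c') c) / 10) ^ 2 := by
        rw [Finset.mul_sum]
        exact Finset.sum_congr rfl fun c _ => by ring
      rw [e1]
      have h5 := mul_le_mul_of_nonneg_left p5 (sq_nonneg lam)
      have h6 := mul_le_mul_of_nonneg_left p4 hlam0.le
      have h7 : lam ^ 2 * (CK * ∑ c, AA e (kp q.1) g (Gm q) o c) =
          lam * (∑ c, AA e (kp q.1) g (Gm q) o c) / 10 := by
        have : lam ^ 2 * (CK * ∑ c, AA e (kp q.1) g (Gm q) o c) =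
          (lam * CK) * (lam * ∑ c, AA e (kp q.1) g (Gm q) o c) := by ring
        rw [this, hlamC]; ring
      rw [h7] at h5
      have h8 : -(lam * P * (∑ c, AA e (kp q.1) g (Gm q) o c) / 20) + 0 =
        P * (-(lam * (∑ c, AA e (kp q.1) g (Gm q) o c) / 20)) := by ring
      rw [h8]
      refine mul_le_mul_of_nonneg_left ?_ hP0
      linarith
    · have e2 : ∀ c, dC c Φ q = _ := fun c => hj.gr c
      simp only [e2]
      set P := Φ q with hP
      have hP0 : 0 ≤ P := hΦ0 q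
      have hP1 : P ≤ 1 := hΦ1 q h1 h2
      have e1 : (∑ c, (P * (lam * ((3 - 2 * ym e θ Rn (kp q.1) (Gm q) o) * ((∑ c', da e (kp q.1) (Gm q) o
          (e c') c) + ∑ v ∈ Rn.filter (fun v => ∀ c, e c ≠ v), deriv θ (aa (kp q.1) (Gm q) o v) *
          da e (kp q.1) (Gm q) o v c) - (∑ c', da e (kp q.1) (Gm q) o (e c') c) / 10))) ^ 2) =
          P ^ 2 * (lam ^ 2 * ∑ c, ((3 - 2 * ym e θ Rn (kp q.1) (Gm q) o) * ((∑ c', da e (kp q.1) (Gm q) o
          (e c') c) + ∑ v ∈ Rn.filter (fun v => ∀ c, e c ≠ v), deriv θ (aa (kp q.1) (Gm q) o v) *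
          da e (kp q.1) (Gm q) o v c) - (∑ c', da e (kp q.1) (Gm q) o (e c') c) / 10) ^ 2) := by
        rw [Finset.mul_sum, Finset.mul_sum]
        exact Finset.sum_congr rfl fun c _ => by ring
      rw [e1]
      have h5 := mul_le_mul_of_nonneg_left p5 (sq_nonneg lam)
      have h7 : lam ^ 2 * (CK * ∑ c, AA e (kp q.1) g (Gm q) o c) =
          lam * (∑ c, AA e (kp q.1) g (Gm q) o c) / 10 := by
        have : lam ^ 2 * (CK * ∑ c, AA e (kp q.1) g (Gm q) o c) =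
          (lam * CK) * (lam * ∑ c, AA e (kp q.1) g (Gm q) o c) := by ring
        rw [this, hlamC]; ring
      rw [h7] at h5
      have h6 := mul_le_mul_of_nonneg_left h5 (sq_nonneg P)
      refine h6.trans ?_
      have h9 : 0 ≤ lam * ∑ c, AA e (kp q.1) g (Gm q) o c := mul_nonneg hlam0.le hS
      have h10 : P ^ 2 ≤ P := by nlinarith
      calc P ^ 2 * (lam * (∑ c, AA e (kp q.1) g (Gm q) o c) / 10)
          ≤ P * (lam * (∑ c, AA e (kp q.1) g (Gm q) o c) / 10) :=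
            mul_le_mul_of_nonneg_right h10 (by linarith)
        _ = 2 * (lam * P * (∑ c, AA e (kp q.1) g (Gm q) o c) / 20) := by ring

end Pool.Agent.KIL.H38
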