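import Pool.Agent.KIL.Stmts

/-!
# Relative Combes-Thomas estimate
-/

set_option autoImplicit false

open scoped BigOperators

noncomputable section

namespace Pool.Agent.KIL.H38

theorem rct : RctStmt := by
  intro X _ _ Hm V κ o u ω s α k hsy hk hs hκ hu ho hω hω2 hα hα1 hka
  have hk0 : 0 ≤ k := le_trans (Finset.sum_nonneg fun y _ => abs_nonneg _) (hk o)
  set φ : X → ℝ := fun x => Real.exp (α * ω x) with hφ
  set ψ : X → ℂ := fun x => ((φ x - 1 : ℝ) : ℂ) * u x with hψ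
  have ho' : φ o = 1 := by simp [hφ, ho]
  have hψo : ψ o = 0 := by simp [hψ, ho']
  -- the equation of ψ
  have h1 : ∀ x, (starRingEnd ℂ) (ψ x) * ((∑ y, (Hm x y : ℂ) * ψ y) +
      ((V x : ℂ) - Complex.I * κ x) * ψ x) =
      (starRingEnd ℂ) (ψ x) * ∑ y, (Hm x y : ℂ) * (((φ y - φ x : ℝ) : ℂ) * u y) := by
    intro x
    by_cases hx : x = o
    · rw [hx, hψo, map_zero, zero_mul, zero_mul]
    · have h2 := hu x hx
      have h3 : (∑ y, (Hm x y : ℂ) * ψ y) = (∑ y, (Hm x y : ℂ) * (((φ y - φ x : ℝ) : ℂ) * u y)) +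
          ((φ x - 1 : ℝ) : ℂ) * ∑ y, (Hm x y : ℂ) * u y := by
        rw [Finset.mul_sum, ← Finset.sum_add_distrib]
        refine Finset.sum_congr rfl fun y _ => ?_
        simp only [hψ]
        push_cast
        ring
      rw [h3]
      have h4 : (∑ y, (Hm x y : ℂ) * u y) = -(((V x : ℂ) - Complex.I * κ x) * u x) :=
        eq_neg_of_add_eq_zero_left h2
      rw [h4]
      simp only [hψ]
      ring
  have h2 : ∑ x, κ x * ‖ψ x‖ ^ 2 =
      -(∑ x, (starRingEnd ℂ) (ψ x) * ∑ y, (Hm x y : ℂ) * (((φ y - φ x : ℝ) : ℂ) * u y)).im := by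
    rw [← Finset.sum_congr rfl fun x _ => h1 x]
    have e1 : ∀ x, (starRingEnd ℂ) (ψ x) * ((∑ y, (Hm x y : ℂ) * ψ y) +
        ((V x : ℂ) - Complex.I * κ x) * ψ x) =
        (∑ y, (Hm x y : ℂ) * ((starRingEnd ℂ) (ψ x) * ψ y)) +
        (((V x * ‖ψ x‖ ^ 2 : ℝ) : ℂ) - Complex.I * ((κ x * ‖ψ x‖ ^ 2 : ℝ) : ℂ)) := by
      intro x
      have e2 : (starRingEnd ℂ) (ψ x) * ψ x = ((‖ψ x‖ ^ 2 : ℝ) : ℂ) := by
        rw [← Complex.normSq_eq_conj_mul_self, Complex.normSq_eq_norm_sq]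
      rw [mul_add, Finset.mul_sum]
      refine congrArg₂ _ (Finset.sum_congr rfl fun y _ => by ring) ?_
      have e3 : (starRingEnd ℂ) (ψ x) * (((V x : ℂ) - Complex.I * κ x) * ψ x) =
          ((V x : ℂ) - Complex.I * κ x) * ((starRingEnd ℂ) (ψ x) * ψ x) := by ring
      rw [e3, e2]
      push_cast
      ring
    simp_rw [e1]
    rw [Finset.sum_add_distrib, Complex.add_im]
    have e4 : (∑ x, ∑ y, (Hm x y : ℂ) * ((starRingEnd ℂ) (ψ x) * ψ y)).im = 0 := by
      have e5 : (starRingEnd ℂ) (∑ x, ∑ y, (Hm x y : ℂ) * ((starRingEnd ℂ) (ψ x) * ψ y)) =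
          ∑ x, ∑ y, (Hm x y : ℂ) * ((starRingEnd ℂ) (ψ x) * ψ y) := by
        rw [map_sum]
        simp_rw [map_sum, map_mul, Complex.conj_conj, Complex.conj_ofReal]
        rw [Finset.sum_comm]
        refine Finset.sum_congr rfl fun x _ => Finset.sum_congr rfl fun y _ => ?_
        rw [hsy x y]
        ring
      exact Complex.conj_eq_iff_im.1 e5
    rw [e4, zero_add, Finset.sum_sub_distrib, Complex.sub_im, ← Finset.mul_sum,
      ← Complex.ofReal_sum, ← Complex.ofReal_sum, Complex.ofReal_im, Complex.mul_im,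
      Complex.ofReal_re, Complex.ofReal_im, Complex.I_re, Complex.I_im]
    ring
  -- alive sites
  set al : X → Prop := fun x => s ≤ κ x ∧ x ≠ o with hal
  classical
  set p : X → ℝ := fun x => if al x then ‖ψ x‖ else 0 with hp
  set r : X → ℝ := fun x => if al x then ‖u x‖ else 0 with hr
  have hp0 : ∀ x, 0 ≤ p x := fun x => by
    simp only [hp]; split_ifs
    · exact norm_nonneg _
    · exact le_rfl
  have hr0 : ∀ x, 0 ≤ r x := fun x => by
    simp only [hr]; split_ifs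
    · exact norm_nonneg _
    · exact le_rfl
  have h3 : ∀ x y, ‖(starRingEnd ℂ) (ψ x) * ((Hm x y : ℂ) * (((φ y - φ x : ℝ) : ℂ) * u y))‖ ≤
      2 * α * (|Hm x y| * (p x * (p y + r y))) := by
    intro x y
    have hnn : 0 ≤ 2 * α * (|Hm x y| * (p x * (p y + r y))) := by
      have := hp0 x; have := hp0 y; have := hr0 y; positivity
    by_cases hH : Hm x y = 0
    · rw [hH]; simp
    obtain ⟨hd1, hd2⟩ := hω2 x y hH
    by_cases hb : κ x < s ∨ κ y < s ∨ x = o ∨ y = o
    · have e1 : φ y - φ x = 0 := by simp only [hφ]; rw [hd2 hb]; ring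
      rw [e1]; simpa using hnn
    · push Not at hb
      obtain ⟨b1, b2, b3, b4⟩ := hb
      have ax : al x := ⟨b1, b3⟩
      have ay : al y := ⟨b2, b4⟩
      have px : p x = ‖ψ x‖ := by simp only [hp]; rw [if_pos ax]
      have py : p y = ‖ψ y‖ := by simp only [hp]; rw [if_pos ay]
      have ry : r y = ‖u y‖ := by simp only [hr]; rw [if_pos ay]
      rw [px, py, ry, norm_mul, norm_mul, norm_mul, RCLike.norm_conj, Complex.norm_real,
        Complex.norm_real, Real.norm_eq_abs, Real.norm_eq_abs]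
      have e1 : |φ y - φ x| ≤ 2 * α * φ y := by
        have e2 : φ x = φ y * Real.exp (α * (ω x - ω y)) := by
          simp only [hφ]; rw [← Real.exp_add]; congr 1; ring
        have e3 : |Real.exp (α * (ω x - ω y)) - 1| ≤ 2 * α := by
          have e4 : |α * (ω x - ω y)| ≤ α := by
            rw [abs_mul, abs_of_pos hα]; nlinarith
          have e5 := Real.abs_exp_sub_one_le (x := α * (ω x - ω y)) (e4.trans hα1)
          linarith
        have e6 : φ y - φ x = -(φ y * (Real.exp (α * (ω x - ω y)) - 1)) := by rw [e2]; ring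
        rw [e6, abs_neg, abs_mul, abs_of_pos (Real.exp_pos _ : 0 < φ y)]
        have := (Real.exp_pos (α * ω y)).le
        calc φ y * |Real.exp (α * (ω x - ω y)) - 1| ≤ φ y * (2 * α) :=
              mul_le_mul_of_nonneg_left e3 this
          _ = 2 * α * φ y := by ring
      have e7 : φ y * ‖u y‖ ≤ ‖ψ y‖ + ‖u y‖ := by
        have e8 : ‖ψ y‖ = |φ y - 1| * ‖u y‖ := by
          simp only [hψ]; rw [norm_mul, Complex.norm_real, Real.norm_eq_abs]
        rw [e8]
        have e9 : φ y ≤ |φ y - 1| + 1 := by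
          have := le_abs_self (φ y - 1); linarith
        nlinarith [norm_nonneg (u y)]
      calc ‖ψ x‖ * (|Hm x y| * (|φ y - φ x| * ‖u y‖))
          ≤ ‖ψ x‖ * (|Hm x y| * (2 * α * φ y * ‖u y‖)) := by gcongr
        _ = 2 * α * (|Hm x y| * (‖ψ x‖ * (φ y * ‖u y‖))) := by ring
        _ ≤ 2 * α * (|Hm x y| * (‖ψ x‖ * (‖ψ y‖ + ‖u y‖))) := by gcongr
  have h4 : ∑ x, κ x * ‖ψ x‖ ^ 2 ≤ ∑ x, ∑ y, 2 * α * (|Hm x y| * (p x * (p y + r y))) := by
    rw [h2]
    refine (neg_le_abs _).trans ((Complex.abs_im_le_norm _).trans ?_)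
    refine (norm_sum_le _ _).trans (Finset.sum_le_sum fun x _ => ?_)
    rw [Finset.mul_sum]
    exact (norm_sum_le _ _).trans (Finset.sum_le_sum fun y _ => h3 x y)
  have h5 : ∑ x, ∑ y, 2 * α * (|Hm x y| * (p x * (p y + r y))) ≤
      α * k * (3 * (∑ x, p x ^ 2) + ∑ x, r x ^ 2) := by
    have e1 : ∀ x y, 2 * α * (|Hm x y| * (p x * (p y + r y))) ≤
        α * (|Hm x y| * (2 * p x ^ 2)) + α * (|Hm x y| * (p y ^ 2 + r y ^ 2)) := by
      intro x y
      have e2 : 2 * (p x * (p y + r y)) ≤ 2 * p x ^ 2 + (p y ^ 2 + r y ^ 2) := by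
        nlinarith [sq_nonneg (p x - p y), sq_nonneg (p x - r y)]
      have e3 : 0 ≤ α * |Hm x y| := by positivity
      nlinarith [mul_le_mul_of_nonneg_left e2 e3]
    have e4 : ∑ x, ∑ y, α * (|Hm x y| * (2 * p x ^ 2)) ≤ α * k * (2 * ∑ x, p x ^ 2) := by
      rw [Finset.mul_sum, Finset.mul_sum]
      refine Finset.sum_le_sum fun x _ => ?_
      rw [← Finset.mul_sum, ← Finset.sum_mul]
      have := hk x
      have e5 : (∑ y, |Hm x y|) * (2 * p x ^ 2) ≤ k * (2 * p x ^ 2) := by gcongr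
      calc α * ((∑ y, |Hm x y|) * (2 * p x ^ 2)) ≤ α * (k * (2 * p x ^ 2)) := by gcongr
        _ = α * k * (2 * p x ^ 2) := by ring
    have e6 : ∑ x, ∑ y, α * (|Hm x y| * (p y ^ 2 + r y ^ 2)) ≤
        α * k * ((∑ x, p x ^ 2) + ∑ x, r x ^ 2) := by
      rw [Finset.sum_comm, ← Finset.sum_add_distrib, Finset.mul_sum]
      refine Finset.sum_le_sum fun y _ => ?_
      rw [← Finset.mul_sum, ← Finset.sum_mul]
      have e7 : ∑ x, |Hm x y| ≤ k := by
        rw [Finset.sum_congr rfl fun x _ => by rw [hsy x y]]; exact hk y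
      calc α * ((∑ x, |Hm x y|) * (p y ^ 2 + r y ^ 2)) ≤ α * (k * (p y ^ 2 + r y ^ 2)) := by
            gcongr
        _ = α * k * (p y ^ 2 + r y ^ 2) := by ring
    calc _ ≤ ∑ x, ∑ y, (α * (|Hm x y| * (2 * p x ^ 2)) + α * (|Hm x y| * (p y ^ 2 + r y ^ 2))) :=
          Finset.sum_le_sum fun x _ => Finset.sum_le_sum fun y _ => e1 x y
      _ = (∑ x, ∑ y, α * (|Hm x y| * (2 * p x ^ 2))) +
          ∑ x, ∑ y, α * (|Hm x y| * (p y ^ 2 + r y ^ 2)) := by
          rw [← Finset.sum_add_distrib]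
          exact Finset.sum_congr rfl fun x _ => Finset.sum_add_distrib
      _ ≤ _ := by linarith
  have h6 : s * ∑ x, p x ^ 2 ≤ ∑ x, κ x * ‖ψ x‖ ^ 2 := by
    rw [Finset.mul_sum]
    refine Finset.sum_le_sum fun x _ => ?_
    by_cases hx : al x
    · have : p x = ‖ψ x‖ := by simp only [hp]; rw [if_pos hx]
      rw [this]
      exact mul_le_mul_of_nonneg_right hx.1 (sq_nonneg _)
    · have : p x = 0 := by simp only [hp]; rw [if_neg hx]
      rw [this]
      have := hκ x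
      simp only [ne_eq, OfNat.ofNat_ne_zero, not_false_eq_true, zero_pow, mul_zero]
      positivity
  have h7 : s * ∑ x, r x ^ 2 ≤ ∑ x ∈ Finset.univ.erase o, κ x * ‖u x‖ ^ 2 := by
    rw [Finset.mul_sum, ← Finset.add_sum_erase _ _ (Finset.mem_univ o)]
    have e1 : r o = 0 := by simp only [hr]; rw [if_neg fun h => h.2 rfl]
    rw [e1]
    simp only [ne_eq, OfNat.ofNat_ne_zero, not_false_eq_true, zero_pow, mul_zero, zero_add]
    refine Finset.sum_le_sum fun x _ => ?_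
    by_cases hx : al x
    · have : r x = ‖u x‖ := by simp only [hr]; rw [if_pos hx]
      rw [this]
      exact mul_le_mul_of_nonneg_right hx.1 (sq_nonneg _)
    · have : r x = 0 := by simp only [hr]; rw [if_neg hx]
      rw [this]
      have := hκ x
      simp only [ne_eq, OfNat.ofNat_ne_zero, not_false_eq_true, zero_pow, mul_zero]
      positivity
  have h8 : ∑ v ∈ Finset.univ.erase o, κ v * ((Real.exp (α * ω v) - 1) ^ 2 * ‖u v‖ ^ 2) =
      ∑ x, κ x * ‖ψ x‖ ^ 2 := by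
    rw [← Finset.add_sum_erase Finset.univ _ (Finset.mem_univ o), hψo]
    simp only [norm_zero, ne_eq, OfNat.ofNat_ne_zero, not_false_eq_true, zero_pow, mul_zero,
      zero_add]
    refine Finset.sum_congr rfl fun x _ => ?_
    simp only [hψ]
    rw [norm_mul, Complex.norm_real, Real.norm_eq_abs, mul_pow, sq_abs]
  rw [h8]
  set P := ∑ x, κ x * ‖ψ x‖ ^ 2 with hP
  set Γ := ∑ x ∈ Finset.univ.erase o, κ x * ‖u x‖ ^ 2 with hΓ
  have hΓ0 : 0 ≤ Γ := Finset.sum_nonneg fun x _ => mul_nonneg (hκ x) (sq_nonneg _)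
  have h9 : P ≤ α * k * (3 * (∑ x, p x ^ 2) + ∑ x, r x ^ 2) := h4.trans h5
  have h10 : 16 * P ≤ s * (3 * (∑ x, p x ^ 2) + ∑ x, r x ^ 2) := by
    have e1 : 0 ≤ 3 * (∑ x, p x ^ 2) + ∑ x, r x ^ 2 := by positivity
    have e2 : 16 * (α * k) ≤ s := by linarith
    nlinarith [mul_le_mul_of_nonneg_right e2 e1]
  nlinarith [h6, h7, h10]

end Pool.Agent.KIL.H38
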